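import Pool.Agent.helper28.GA.SpecA

set_option autoImplicit false

/-!
# Star case: all points are on one conic, from ONE independent triple (valid for all `card S ≥ 3`)
-/

namespace Pool.Agent.helper28.GA

open Pool.Agent.helper55.ARC

/-- The determinant of three points with coordinates `X, Y, Z` (characteristic 2). -/
def SBT_det {F α : Type} [Field F] (X Y Z : α → F) (a b c : α) : F :=
  X a * (Y b * Z c + Y c * Z b) + Y a * (X b * Z c + X c * Z b) + Z a * (X b * Y c + X c * Y b)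

/-- No point is on the side `Z = 0`. -/
theorem SBT_core {F α : Type} [Field F] [Fintype F] [CharP F 2] [Fintype α] (s : ℕ)
    (hs : Fintype.card F = 2 * s) (hα : s + 3 ≤ Fintype.card α) (h3 : 3 ≤ Fintype.card α)
    (X Y Z : α → F) (al be ga : F)
    (hal : al ≠ 0) (hbe : be ≠ 0) (hga : ga ≠ 0)
    (hdet : ∀ a b c, a ≠ b → a ≠ c → b ≠ c → SBT_det X Y Z a b c ≠ 0)
    (h0 : ∀ a, X a ≠ 0 ∨ Y a ≠ 0 ∨ Z a ≠ 0)
    (hrel : ∀ a, al * (Z a)⁻¹ + be * (Y a)⁻¹ + ga * (X a)⁻¹ = 0) (a : α) : Z a ≠ 0 := by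
  classical
  intro hZ
  have two : (2 : F) = 0 := CharTwo.two_eq_zero
  have neg : ∀ x : F, -x = x := fun x => CharTwo.neg_eq x
  have eqz : ∀ x y : F, x + y = 0 → x = y := fun x y h => by
    rw [← neg y]; exact eq_neg_of_add_eq_zero_left h
  -- three point trick
  have third : ∀ b c : α, b ≠ c → ∃ d, b ≠ d ∧ c ≠ d := by
    intro b c hbc
    by_contra hcon
    push Not at hcon
    have : (Finset.univ : Finset α) ⊆ {b, c} := by
      intro d _
      by_cases hd : b = d
      · simp [hd]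
      · simp [(hcon d hd).symm]
    have := Finset.card_le_card this
    rw [Finset.card_univ] at this
    have h2 := Finset.card_le_two (a := b) (b := c)
    omega
  have prop : ∀ b c : α, ∀ l : F, X c = l * X b → Y c = l * Y b → Z c = l * Z b → b = c := by
    intro b c l h1 h2 h3'
    by_contra hbc
    obtain ⟨d, hd1, hd2⟩ := third b c hbc
    apply hdet b c d hbc hd1 hd2
    unfold SBT_det
    rw [h1, h2, h3']
    linear_combination (l * X b * Y b * Z d + l * X b * Y d * Z b + l * X d * Y b * Z b) * two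
  -- the sides
  have side : ∀ (U V W : α → F) (p q r : F), p ≠ 0 → q ≠ 0 → r ≠ 0 →
      (∀ a, U a ≠ 0 ∨ V a ≠ 0 ∨ W a ≠ 0) →
      (∀ a, p * (W a)⁻¹ + q * (V a)⁻¹ + r * (U a)⁻¹ = 0) → ∀ a, W a = 0 →
      U a ≠ 0 ∧ V a ≠ 0 ∧ q * U a = r * V a := by
    intro U V W p q r hp hq hr h0' hrel' a hW
    have h := hrel' a
    rw [hW, inv_zero, mul_zero, zero_add] at h
    have hU : U a ≠ 0 := by
      intro hU
      rw [hU, inv_zero, mul_zero, add_zero] at h
      rcases h0' a with h1 | h1 | h1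
      · exact h1 hU
      · exact (mul_ne_zero hq (inv_ne_zero h1)) h
      · exact h1 hW
    have hV : V a ≠ 0 := by
      intro hV
      rw [hV, inv_zero, mul_zero, zero_add] at h
      exact (mul_ne_zero hr (inv_ne_zero hU)) h
    refine ⟨hU, hV, ?_⟩
    have h2 := eqz _ _ h
    field_simp at h2
    linear_combination h2
  have sZ : ∀ b, Z b = 0 → X b ≠ 0 ∧ Y b ≠ 0 ∧ be * X b = ga * Y b :=
    side X Y Z al be ga hal hbe hga h0 hrel
  have sY : ∀ b, Y b = 0 → X b ≠ 0 ∧ Z b ≠ 0 ∧ al * X b = ga * Z b :=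
    side X Z Y be al ga hbe hal hga
      (fun a => by rcases h0 a with h | h | h <;> tauto)
      (fun a => by rw [← hrel a]; ring)
  have sX : ∀ b, X b = 0 → Z b ≠ 0 ∧ Y b ≠ 0 ∧ be * Z b = al * Y b :=
    side Z Y X ga be al hga hbe hal
      (fun a => by rcases h0 a with h | h | h <;> tauto)
      (fun a => by rw [← hrel a]; ring)
  have uZ : ∀ b c, Z b = 0 → Z c = 0 → b = c := by
    intro b c hb hc
    obtain ⟨h1, h2, h3'⟩ := sZ b hb
    obtain ⟨h4, h5, h6⟩ := sZ c hc
    refine prop b c (X c / X b) (by field_simp) ?_ (by rw [hb, hc, mul_zero])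
    field_simp
    apply mul_left_cancel₀ hga
    linear_combination (-X b) * h6 + X c * h3'
  have uY : ∀ b c, Y b = 0 → Y c = 0 → b = c := by
    intro b c hb hc
    obtain ⟨h1, h2, h3'⟩ := sY b hb
    obtain ⟨h4, h5, h6⟩ := sY c hc
    refine prop b c (X c / X b) (by field_simp) (by rw [hb, hc, mul_zero]) ?_
    field_simp
    apply mul_left_cancel₀ hga
    linear_combination (-X b) * h6 + X c * h3'
  have uX : ∀ b c, X b = 0 → X c = 0 → b = c := by
    intro b c hb hc
    obtain ⟨h1, h2, h3'⟩ := sX b hb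
    obtain ⟨h4, h5, h6⟩ := sX c hc
    refine prop b c (Z c / Z b) (by rw [hb, hc, mul_zero]) ?_ (by field_simp)
    field_simp
    apply mul_left_cancel₀ hal
    linear_combination (-Z b) * h6 + Z c * h3'
  obtain ⟨hXa, hYa, hXY⟩ := sZ a hZ
  set B : Finset α := Finset.univ.filter fun b => X b ≠ 0 ∧ Y b ≠ 0 ∧ Z b ≠ 0 with hB
  have hBcard : Fintype.card α ≤ B.card + 3 := by
    have hsub : (Finset.univ : Finset α) ⊆ B ∪ ((Finset.univ.filter fun b => X b = 0) ∪
        ((Finset.univ.filter fun b => Y b = 0) ∪ (Finset.univ.filter fun b => Z b = 0))) := by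
      intro b _
      simp only [hB, Finset.mem_union, Finset.mem_filter, Finset.mem_univ, true_and]
      tauto
    have h1 := (Finset.card_le_card hsub).trans (Finset.card_union_le _ _)
    have h2 := Finset.card_union_le (Finset.univ.filter fun b => X b = 0)
      ((Finset.univ.filter fun b => Y b = 0) ∪ (Finset.univ.filter fun b => Z b = 0))
    have h4 := Finset.card_union_le (Finset.univ.filter fun b => Y b = 0)
      (Finset.univ.filter fun b => Z b = 0)
    have c1 : (Finset.univ.filter fun b => X b = 0).card ≤ 1 :=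
      Finset.card_le_one.2 fun b hb c hc => uX b c (by simpa using hb) (by simpa using hc)
    have c2 : (Finset.univ.filter fun b => Y b = 0).card ≤ 1 :=
      Finset.card_le_one.2 fun b hb c hc => uY b c (by simpa using hb) (by simpa using hc)
    have c3 : (Finset.univ.filter fun b => Z b = 0).card ≤ 1 :=
      Finset.card_le_one.2 fun b hb c hc => uZ b c (by simpa using hb) (by simpa using hc)
    rw [Finset.card_univ] at h1
    omega
  -- the conic
  have conic : ∀ b ∈ B, al * (X b * Y b) = Z b * (be * X b + ga * Y b) := by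
    intro b hb
    simp only [hB, Finset.mem_filter, Finset.mem_univ, true_and] at hb
    obtain ⟨h1, h2, h3'⟩ := hb
    have h := hrel b
    field_simp at h
    linear_combination h - (be * X b * Z b + ga * Y b * Z b) * two
  have lin0 : ∀ b ∈ B, be * X b + ga * Y b ≠ 0 := by
    intro b hb h
    have h1 := conic b hb
    rw [h, mul_zero] at h1
    simp only [hB, Finset.mem_filter, Finset.mem_univ, true_and] at hb
    exact mul_ne_zero hal (mul_ne_zero hb.1 hb.2.1) h1
  set kap : F := (be / ga) ^ 2 with hkap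
  have hkap0 : kap ≠ 0 := pow_ne_zero _ (div_ne_zero hbe hga)
  have inB : ∀ b ∈ B, X b ≠ 0 ∧ Y b ≠ 0 ∧ Z b ≠ 0 := by
    intro b hb
    simpa only [hB, Finset.mem_filter, Finset.mem_univ, true_and] using hb
  have inj1 : ∀ b ∈ B, ∀ c ∈ B, Y b / X b = Y c / X c → b = c := by
    intro b hb c hc h
    obtain ⟨b1, b2, b3⟩ := inB b hb
    obtain ⟨c1, c2, c3⟩ := inB c hc
    have hY : Y c = X c / X b * Y b := by
      field_simp at h ⊢
      linear_combination -h
    refine prop b c (X c / X b) (by field_simp) hY ?_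
    apply mul_right_cancel₀ (lin0 c hc)
    rw [← conic c hc, hY]
    have h2 := conic b hb
    field_simp
    linear_combination h2
  have disj : ∀ b ∈ B, ∀ c ∈ B, Y b / X b ≠ kap / (Y c / X c) := by
    intro b hb c hc h
    obtain ⟨b1, b2, b3⟩ := inB b hb
    obtain ⟨c1, c2, c3⟩ := inB c hc
    have h1 : ga ^ 2 * (Y b * Y c) = be ^ 2 * (X b * X c) := by
      rw [hkap] at h
      field_simp at h
      linear_combination h
    by_cases hbc : b = c
    · subst hbc
      apply lin0 b hb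
      have : (be * X b + ga * Y b) ^ 2 = 0 := by
        linear_combination h1 + (be ^ 2 * X b ^ 2 + be * X b * ga * Y b) * two
      exact pow_eq_zero_iff (two_ne_zero) |>.1 this
    · have hab : a ≠ b := fun e => b3 (e ▸ hZ)
      have hac : a ≠ c := fun e => c3 (e ▸ hZ)
      apply hdet a b c hab hac hbc
      unfold SBT_det
      rw [hZ, zero_mul, add_zero]
      -- Z b, Z c from the conic
      have k1 := conic b hb
      have k2 := conic c hc
      have l1 := lin0 b hb
      have l2 := lin0 c hc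
      have hYa : Y a = be / ga * X a := by field_simp; linear_combination -hXY
      rw [hYa]
      have key : (Z c * (be * X b + ga * Y b) + Z b * (be * X c + ga * Y c)) *
          ((be * X b + ga * Y b) * (be * X c + ga * Y c)) = 0 := by
        linear_combination (-(be * X b + ga * Y b) ^ 2) * k2 - (be * X c + ga * Y c) ^ 2 * k1 +
          al * (X b * Y c + X c * Y b) * h1 +
          (al * (X b * Y c + X c * Y b) * be ^ 2 * (X b * X c) +
            2 * al * be * ga * X b * Y b * X c * Y c) * two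
      have key2 := (mul_eq_zero.1 key).resolve_right (mul_ne_zero l1 l2)
      field_simp
      linear_combination X a * key2
  have c1 : (B.image fun b => Y b / X b).card = B.card :=
    Finset.card_image_of_injOn fun b hb c hc h => inj1 b hb c hc h
  have c2 : (B.image fun b => kap / (Y b / X b)).card = B.card := by
    refine Finset.card_image_of_injOn fun b hb c hc h => inj1 b hb c hc ?_
    obtain ⟨b1, b2, b3⟩ := inB b hb
    obtain ⟨d1, d2, d3⟩ := inB c hc
    have hb' : Y b / X b ≠ 0 := div_ne_zero b2 b1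
    have hc' : Y c / X c ≠ 0 := div_ne_zero d2 d1
    have h' : kap / (Y b / X b) = kap / (Y c / X c) := h
    rw [div_eq_div_iff hb' hc'] at h'
    exact (mul_left_cancel₀ hkap0 h').symm
  have hd : Disjoint (B.image fun b => Y b / X b) (B.image fun b => kap / (Y b / X b)) := by
    rw [Finset.disjoint_left]
    intro x hx hx'
    simp only [Finset.mem_image] at hx hx'
    obtain ⟨b, hb, rfl⟩ := hx
    obtain ⟨c, hc, h⟩ := hx'
    exact disj b hb c hc h.symm
  have hsub : (B.image fun b => Y b / X b) ∪ (B.image fun b => kap / (Y b / X b)) ⊆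
      Finset.univ.erase (0 : F) := by
    intro x hx
    simp only [Finset.mem_union, Finset.mem_image] at hx
    rw [Finset.mem_erase]
    refine ⟨?_, Finset.mem_univ _⟩
    rcases hx with ⟨b, hb, rfl⟩ | ⟨b, hb, rfl⟩
    · obtain ⟨b1, b2, b3⟩ := inB b hb
      exact div_ne_zero b2 b1
    · obtain ⟨b1, b2, b3⟩ := inB b hb
      exact div_ne_zero hkap0 (div_ne_zero b2 b1)
  have k1 := Finset.card_le_card hsub
  have k2 := Finset.card_union_of_disjoint hd
  have k3 : (Finset.univ.erase (0 : F)).card = 2 * s - 1 := by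
    rw [Finset.card_erase_of_mem (Finset.mem_univ _), Finset.card_univ, hs]
  have k4 : 0 < Fintype.card F := Fintype.card_pos
  omega

theorem SBT_mul {F : Type} [Field F] [CharP F 2] (x y z a b c : Fin 3 → F) :
    dt x a * (dt y b * dt z c + dt y c * dt z b) + dt y a * (dt x b * dt z c + dt x c * dt z b) +
      dt z a * (dt x b * dt y c + dt x c * dt y b) = dt (cr x y) z * dt (cr a b) c := by
  have e : ∀ u v : F, u + v = u - v := fun u v => (CharTwo.sub_eq_add u v).symm
  have h1 : dt (cr x y) z = (x 1 * y 2 - x 2 * y 1) * z 0 + (x 2 * y 0 - x 0 * y 2) * z 1 +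
      (x 0 * y 1 - x 1 * y 0) * z 2 := by
    simp only [dt, cr, Matrix.cons_val_zero, Matrix.cons_val_one, Matrix.cons_val, CharTwo.sub_eq_add]
  have h2 : dt (cr a b) c = (a 1 * b 2 - a 2 * b 1) * c 0 + (a 2 * b 0 - a 0 * b 2) * c 1 +
      (a 0 * b 1 - a 1 * b 0) * c 2 := by
    simp only [dt, cr, Matrix.cons_val_zero, Matrix.cons_val_one, Matrix.cons_val, CharTwo.sub_eq_add]
  have h3 : dt x a * (dt y b * dt z c + dt y c * dt z b) + dt y a * (dt x b * dt z c + dt x c * dt z b) +
      dt z a * (dt x b * dt y c + dt x c * dt y b) =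
      dt x a * (dt y b * dt z c - dt y c * dt z b) - dt y a * (dt x b * dt z c - dt x c * dt z b) +
      dt z a * (dt x b * dt y c - dt x c * dt y b) := by
    simp only [CharTwo.sub_eq_add]
  rw [h3, h1, h2]
  simp only [dt]
  ring

theorem SBT_sq {F : Type} [Field F] [CharP F 2] (x y z : Fin 3 → F) :
    dt (cr (cr y z) (cr x z)) (cr x y) = dt (cr x y) z ^ 2 := by
  have h1 : dt (cr x y) z = (x 1 * y 2 - x 2 * y 1) * z 0 + (x 2 * y 0 - x 0 * y 2) * z 1 +
      (x 0 * y 1 - x 1 * y 0) * z 2 := by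
    simp only [dt, cr, Matrix.cons_val_zero, Matrix.cons_val_one, Matrix.cons_val, CharTwo.sub_eq_add]
  have h2 : dt (cr (cr y z) (cr x z)) (cr x y) =
      ((y 2 * z 0 - y 0 * z 2) * (x 0 * z 1 - x 1 * z 0) - (y 0 * z 1 - y 1 * z 0) * (x 2 * z 0 - x 0 * z 2)) *
        (x 1 * y 2 - x 2 * y 1) +
      ((y 0 * z 1 - y 1 * z 0) * (x 1 * z 2 - x 2 * z 1) - (y 1 * z 2 - y 2 * z 1) * (x 0 * z 1 - x 1 * z 0)) *
        (x 2 * y 0 - x 0 * y 2) +
      ((y 1 * z 2 - y 2 * z 1) * (x 2 * z 0 - x 0 * z 2) - (y 2 * z 0 - y 0 * z 2) * (x 1 * z 2 - x 2 * z 1)) *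
        (x 0 * y 1 - x 1 * y 0) := by
    simp only [dt, cr, Matrix.cons_val_zero, Matrix.cons_val_one, Matrix.cons_val, CharTwo.sub_eq_add]
  rw [h2, h1, ← CharTwo.neg_eq (_ ^ 2)]
  ring

/-- SBT: the star case from one independent triple. -/
theorem SBT {F : Type} [Field F] [Fintype F] [CharP F 2] (s : ℕ) (hs : Fintype.card F = 2 * s)
    (α : Type) [Fintype α] (hα : s + 3 ≤ Fintype.card α)
    (p : α → Fin 3 → F)
    (hp : ∀ a b d, a ≠ b → a ≠ d → b ≠ d → dt (cr (p a) (p b)) (p d) ≠ 0)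
    (P1 P2 P3 : Fin 3 → F) (hP : dt (cr P1 P2) P3 ≠ 0) (c12 c13 c23 : F)
    (h12 : c12 ≠ 0) (h13 : c13 ≠ 0) (h23 : c23 ≠ 0)
    (hrel : ∀ a, c12 * (dt (cr P1 P2) (p a))⁻¹ + c13 * (dt (cr P1 P3) (p a))⁻¹ +
      c23 * (dt (cr P2 P3) (p a))⁻¹ = 0) : OnConic p := by
  have two : (2 : F) = 0 := CharTwo.two_eq_zero
  have hs1 : 1 ≤ s := by
    have : 0 < Fintype.card F := Fintype.card_pos
    omega
  have h3 : 3 ≤ Fintype.card α := by omega
  set X : α → F := fun a => dt (cr P2 P3) (p a) with hX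
  set Y : α → F := fun a => dt (cr P1 P3) (p a) with hY
  set Z : α → F := fun a => dt (cr P1 P2) (p a) with hZ
  have hdet : ∀ a b c, a ≠ b → a ≠ c → b ≠ c → SBT_det X Y Z a b c ≠ 0 := by
    intro a b c h1 h2 h4
    have : SBT_det X Y Z a b c = dt (cr P1 P2) P3 ^ 2 * dt (cr (p a) (p b)) (p c) := by
      rw [← SBT_sq P1 P2 P3]
      exact SBT_mul (cr P2 P3) (cr P1 P3) (cr P1 P2) (p a) (p b) (p c)
    rw [this]
    exact mul_ne_zero (pow_ne_zero _ hP) (hp a b c h1 h2 h4)
  have perm1 : ∀ a b c, SBT_det X Z Y a b c = SBT_det X Y Z a b c := by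
    intro a b c; unfold SBT_det; ring
  have perm2 : ∀ a b c, SBT_det Z Y X a b c = SBT_det X Y Z a b c := by
    intro a b c; unfold SBT_det; ring
  have hX0 : ∀ a, X a ≠ 0 ∨ Y a ≠ 0 ∨ Z a ≠ 0 := by
    classical
    intro a
    by_contra hcon
    push Not at hcon
    obtain ⟨e1, e2, e3⟩ := hcon
    have hc : 1 < (Finset.univ.erase a : Finset α).card := by
      rw [Finset.card_erase_of_mem (Finset.mem_univ _), Finset.card_univ]; omega
    obtain ⟨b, hb, c, hc, hbc⟩ := Finset.one_lt_card.1 hc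
    apply hdet a b c (Finset.ne_of_mem_erase hb).symm (Finset.ne_of_mem_erase hc).symm hbc
    unfold SBT_det
    rw [e1, e2, e3]; ring
  have hZn : ∀ a, Z a ≠ 0 := SBT_core s hs hα h3 X Y Z c12 c13 c23 h12 h13 h23 hdet hX0 hrel
  have hYn : ∀ a, Y a ≠ 0 := SBT_core s hs hα h3 X Z Y c13 c12 c23 h13 h12 h23
    (fun a b c h1 h2 h4 => by rw [perm1]; exact hdet a b c h1 h2 h4)
    (fun a => by rcases hX0 a with h | h | h <;> tauto)
    (fun a => by rw [← hrel a]; ring)
  have hXn : ∀ a, X a ≠ 0 := SBT_core s hs hα h3 Z Y X c23 c13 c12 h23 h13 h12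
    (fun a b c h1 h2 h4 => by rw [perm2]; exact hdet a b c h1 h2 h4)
    (fun a => by rcases hX0 a with h | h | h <;> tauto)
    (fun a => by rw [← hrel a]; ring)
  have hcon : ∀ a, c12 * (X a * Y a) + c13 * (X a * Z a) + c23 * (Y a * Z a) = 0 := by
    intro a
    have h := hrel a
    have h1 := hXn a
    have h2 := hYn a
    have h4 := hZn a
    change c12 * (Z a)⁻¹ + c13 * (Y a)⁻¹ + c23 * (X a)⁻¹ = 0 at h
    field_simp at h
    linear_combination h
  set x := cr P2 P3 with hx
  set y := cr P1 P3 with hy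
  set z := cr P1 P2 with hz
  set q : Fin 6 → F := ![c12 * (x 0 * y 0) + c13 * (x 0 * z 0) + c23 * (y 0 * z 0),
    c12 * (x 1 * y 1) + c13 * (x 1 * z 1) + c23 * (y 1 * z 1),
    c12 * (x 2 * y 2) + c13 * (x 2 * z 2) + c23 * (y 2 * z 2),
    c12 * (x 1 * y 2 + x 2 * y 1) + c13 * (x 1 * z 2 + x 2 * z 1) + c23 * (y 1 * z 2 + y 2 * z 1),
    c12 * (x 0 * y 2 + x 2 * y 0) + c13 * (x 0 * z 2 + x 2 * z 0) + c23 * (y 0 * z 2 + y 2 * z 0),
    c12 * (x 0 * y 1 + x 1 * y 0) + c13 * (x 0 * z 1 + x 1 * z 0) + c23 * (y 0 * z 1 + y 1 * z 0)] with hq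
  have hqv : ∀ v : Fin 3 → F, qf q v =
      c12 * (dt x v * dt y v) + c13 * (dt x v * dt z v) + c23 * (dt y v * dt z v) := by
    intro v
    simp only [qf, hq, dt, Matrix.cons_val_zero, Matrix.cons_val_one, Matrix.cons_val]
    ring
  refine ⟨q, ?_, fun a => ?_⟩
  · intro h0
    have h1 := hqv (P1 + P2)
    have e1 : dt x (P1 + P2) = dt (cr P1 P2) P3 := by
      have : dt x (P1 + P2) = dt (cr P1 P2) P3 + (P2 0 * P2 1 * P3 2 + P2 0 * P2 2 * P3 1 + P2 1 * P2 2 * P3 0) * 2 := by
        simp only [hx, dt, cr, Matrix.cons_val_zero, Matrix.cons_val_one, Matrix.cons_val, Pi.add_apply]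
        ring
      rw [this, two, mul_zero, add_zero]
    have e2 : dt y (P1 + P2) = dt (cr P1 P2) P3 := by
      have : dt y (P1 + P2) = dt (cr P1 P2) P3 + (P1 0 * P1 1 * P3 2 + P1 0 * P1 2 * P3 1 + P1 1 * P1 2 * P3 0) * 2 := by
        simp only [hy, dt, cr, Matrix.cons_val_zero, Matrix.cons_val_one, Matrix.cons_val, Pi.add_apply]
        ring
      rw [this, two, mul_zero, add_zero]
    have e3 : dt z (P1 + P2) = 0 := by
      have : dt z (P1 + P2) = (P1 0 * P1 1 * P2 2 + P1 0 * P1 2 * P2 1 + P1 1 * P1 2 * P2 0 +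
          (P2 0 * P2 1 * P1 2 + P2 0 * P2 2 * P1 1 + P2 1 * P2 2 * P1 0)) * 2 := by
        simp only [hz, dt, cr, Matrix.cons_val_zero, Matrix.cons_val_one, Matrix.cons_val, Pi.add_apply]
        ring
      rw [this, two, mul_zero]
    rw [e1, e2, e3, h0] at h1
    apply mul_ne_zero h12 (mul_ne_zero hP hP)
    simp only [qf, Pi.zero_apply] at h1
    linear_combination -h1
  · rw [hqv]; exact hcon a

theorem SBT_self {F : Type} [Field F] [CharP F 2] (a b : Fin 3 → F) :
    dt (cr a b) a = 0 ∧ dt (cr a b) b = 0 := by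
  have two : (2 : F) = 0 := CharTwo.two_eq_zero
  constructor
  · have : dt (cr a b) a = (a 0 * a 1 * b 2 + a 0 * a 2 * b 1 + a 1 * a 2 * b 0) * 2 := by
      simp only [dt, cr, Matrix.cons_val_zero, Matrix.cons_val_one, Matrix.cons_val]
      ring
    rw [this, two, mul_zero]
  · have : dt (cr a b) b = (b 0 * b 1 * a 2 + b 0 * b 2 * a 1 + b 1 * b 2 * a 0) * 2 := by
      simp only [dt, cr, Matrix.cons_val_zero, Matrix.cons_val_one, Matrix.cons_val]
      ring
    rw [this, two, mul_zero]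

/-- SA2: the row SA for all `D ≥ 2` (`k ≥ 6`), without SB. -/
theorem SA2 (hSQ : SQ_stmt) : ∀ (F : Type) [Field F] [Fintype F] [DecidableEq F] [CharP F 2] (s D : ℕ)
    (α : Type) [Fintype α] [DecidableEq α] (P : PlaneData F s D α) (S : Type) [Fintype S] [DecidableEq S]
    (_Q : Star P S), StdP F s D → D + 5 ≤ s → 2 ≤ D → OnConic P.p := by
  intro F _ _ _ _ s D α _ _ P S _ _ Q hStd hD hD2
  obtain ⟨c, hsym, hc, hcr, hh, hrel⟩ := hSQ F s D α P S Q hStd hD hD2
  have hS : 1 < Fintype.card S := by rw [Q.cardS]; omega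
  obtain ⟨z1, z2, h12⟩ := Fintype.one_lt_card_iff.1 hS
  obtain ⟨z3, h3⟩ := hh _ (hcr z1 z2 h12)
  have h13 : z1 ≠ z3 := by
    rintro rfl
    exact h3 (SBT_self _ _).1
  have h23 : z2 ≠ z3 := by
    rintro rfl
    exact h3 (SBT_self _ _).2
  have hcard := P.cardA
  exact SBT s hStd.2.1 α (by omega) P.p P.indep (Q.pt z1) (Q.pt z2) (Q.pt z3) h3
    (c z1 z2) (c z1 z3) (c z2 z3) (hc _ _ h12) (hc _ _ h13) (hc _ _ h23) (hrel z1 z2 z3 h12 h13 h23)

end Pool.Agent.helper28.GA
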