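import Pool.Agent.helper4.GA.Spec
import Mathlib

set_option autoImplicit false

open Finset
open Pool.Agent.helper32.Cant

namespace Pool.Agent.GA

theorem WI2_val (N : ℕ) [NeZero N] (u : ZMod N) (j L : ℕ) (hL : 0 < L) (hj : (j + 1) * L ≤ N) :
    (u - ((j * L : ℕ) : ZMod N)).val < L ↔ u.val / L = j := by
  constructor
  · intro h
    set r := (u - ((j * L : ℕ) : ZMod N)).val with hr
    have hu : u = ((j * L + r : ℕ) : ZMod N) := by
      rw [Nat.cast_add, hr, ZMod.natCast_zmod_val]
      ring
    have hlt : j * L + r < N := by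
      have : (j + 1) * L = j * L + L := by ring
      omega
    have hv : u.val = j * L + r := by
      rw [hu]
      exact ZMod.val_cast_of_lt hlt
    rw [hv]
    apply Nat.div_eq_of_lt_le
    · omega
    · have : (j + 1) * L = j * L + L := by ring
      omega
  · intro h
    have h1 := Nat.div_add_mod u.val L
    rw [h] at h1
    set r := u.val % L with hr
    have hrL : r < L := Nat.mod_lt _ hL
    have hu : u - ((j * L : ℕ) : ZMod N) = (r : ZMod N) := by
      have h2 : u = ((L * j + r : ℕ) : ZMod N) := by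
        rw [h1, ZMod.natCast_zmod_val]
      rw [h2]
      push_cast
      ring
    rw [hu, ZMod.val_cast_of_lt]
    · exact hrL
    · have : (j + 1) * L = j * L + L := by ring
      omega

theorem WI2_chi_zero {M : ℕ} [NeZero M] (ℓ : ℝ) : chi ℓ (0 : ZMod M) = 1 := by
  unfold chi nrm
  rw [ZMod.valMinAbs_zero]
  simp

/-- the window at the difference of two points of a cell -/
theorem WI2_near (hCHI : CHI_stmt) (M : ℕ) [NeZero M] (ℓ : ℝ) (hℓ : 0 < ℓ) (v : ZMod M) (d : ℤ)
    (hv : v = (d : ZMod M)) (hd : |(d : ℝ)| ≤ ℓ) : Real.exp (-1) ≤ chi ℓ v := by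
  have h := ((hCHI M ℓ hℓ).2.1 0 d).1
  rw [zero_add, WI2_chi_zero, mul_one, ← hv] at h
  refine le_trans ?_ h
  apply Real.exp_le_exp.mpr
  have : |(d : ℝ)| / ℓ ≤ 1 := by
    rw [div_le_one hℓ]
    exact hd
  linarith

theorem WI2_third : (1 : ℝ) / 3 ≤ Real.exp (-1) := by
  rw [Real.exp_neg, one_div]
  apply inv_anti₀ (Real.exp_pos 1)
  have := Real.exp_one_lt_d9
  linarith

/-- the variation of the window over a short interval -/
theorem WI2_var (hCHI : CHI_stmt) (M : ℕ) [NeZero M] (ℓ : ℝ) (hℓ : 0 < ℓ) (v : ZMod M) (d : ℤ)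
    (δ : ℝ) (hδ : δ ≤ 1 / 3) (hd : |(d : ℝ)| / ℓ ≤ 2 * δ) :
    |chi ℓ (v + (d : ZMod M)) - chi ℓ v| ≤ 4 * δ * chi ℓ v := by
  obtain ⟨h1, h2⟩ := (hCHI M ℓ hℓ).2.1 v d
  have hpos := ((hCHI M ℓ hℓ).1 v).1
  have hy0 : 0 ≤ |(d : ℝ)| / ℓ := by positivity
  set y := |(d : ℝ)| / ℓ with hy
  have e1 : Real.exp y - 1 ≤ 2 * y := by
    have h := Real.abs_exp_sub_one_le (x := y) (by rw [abs_of_nonneg hy0]; linarith)
    rw [abs_of_nonneg hy0] at h
    exact (le_abs_self _).trans h
  have e2 : 1 - y ≤ Real.exp (-y) := by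
    have := Real.add_one_le_exp (-y)
    linarith
  rw [abs_le]
  constructor
  · have h3 : (1 - y) * chi ℓ v ≤ Real.exp (-y) * chi ℓ v :=
      mul_le_mul_of_nonneg_right e2 hpos.le
    have h4 : y * chi ℓ v ≤ 4 * δ * chi ℓ v := by
      apply mul_le_mul_of_nonneg_right _ hpos.le
      linarith
    nlinarith
  · have h3 : (Real.exp y - 1) * chi ℓ v ≤ 4 * δ * chi ℓ v := by
      apply mul_le_mul_of_nonneg_right _ hpos.le
      linarith
    nlinarith

theorem WI2 (hCHI : CHI_stmt) : WI2_stmt := by
  intro n c k A p v₀ S hA hk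
  set κ := k - A with hκ
  set L := 3 ^ (2 * n - (k + 1)) with hLd
  set q := cell n κ v₀ with hq
  set B := 3 ^ (A + 1) with hB
  have hLpos : 0 < L := by positivity
  have hBpos : 0 < B := by positivity
  have hlN : 3 ^ (2 * n - κ) = B * L := by
    rw [hB, hLd, ← pow_add]
    congr 1
    omega
  have hℓR : (3 : ℝ) ^ (2 * n - κ) = B * L := by
    have : ((3 ^ (2 * n - κ) : ℕ) : ℝ) = ((B * L : ℕ) : ℝ) := by rw [hlN]
    push_cast at this
    exact this
  have hℓ0 : (0 : ℝ) < 3 ^ (2 * n - κ) := by positivity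
  have hNL : (3 ^ (2 * n)) = 3 ^ (k + 1) * L := by
    rw [hLd, ← pow_add]
    congr 1
    omega
  have hNl : (3 ^ (2 * n)) = 3 ^ κ * (B * L) := by
    rw [← hlN, ← pow_add]
    congr 1
    omega
  have hq1 : q * (B * L) ≤ v₀.val := by
    rw [hq, cell, hlN]
    exact Nat.div_mul_le_self _ _
  have hq2 : v₀.val < (q + 1) * (B * L) := by
    rw [hq, cell, hlN]
    have := Nat.lt_div_mul_add (a := v₀.val) (b := B * L) (by positivity)
    linarith
  have hq3 : (q + 1) * (B * L) ≤ (3 ^ (2 * n)) := by
    have hlt : q < 3 ^ κ := by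
      rw [hq, cell, hlN, Nat.div_lt_iff_lt_mul (by positivity), ← hNl]
      exact ZMod.val_lt v₀
    rw [hNl]
    exact Nat.mul_le_mul_right _ hlt
  set p' : St n := (p.1 - v₀, p.2) with hp'
  have huv : ∀ x, uv c p' x = uv c p x - v₀ := by
    intro x
    simp only [uv, uu, hp']
    ring
  have hwt : ∀ x, wt c κ p' x = chi ((3 : ℝ) ^ (2 * n - κ)) (uv c p x - v₀) := by
    intro x
    rw [wt, huv]
  constructor
  · intro m hm
    set j := B * q + m with hj
    have hj1 : j * L = q * (B * L) + m * L := by rw [hj]; ring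
    have hj2 : (j + 2) * L ≤ (q + 1) * (B * L) := by
      have h1 : (m + 2) * L ≤ B * L := Nat.mul_le_mul_right _ (by omega)
      have h2 : (j + 2) * L = q * (B * L) + (m + 2) * L := by rw [hj]; ring
      have h3 : (q + 1) * (B * L) = q * (B * L) + B * L := by ring
      rw [h2, h3]
      omega
    have hjN : (j + 2) * L ≤ (3 ^ (2 * n)) := hj2.trans hq3
    have hjN1 : (j + 1) * L ≤ (3 ^ (2 * n)) := by
      have : (j + 2) * L = (j + 1) * L + L := by ring
      omega
    -- the indicators
    have hi1 : ∀ u : ZMod (3 ^ (2 * n)), (u - ((j * L : ℕ) : ZMod (3 ^ (2 * n)))).val < L ↔ cell n (k + 1) u = j := by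
      intro u
      exact WI2_val (3 ^ (2 * n)) u j L hLpos hjN1
    have hi2 : ∀ u : ZMod (3 ^ (2 * n)), (u - ((j * L : ℕ) : ZMod (3 ^ (2 * n))) - ((L : ℕ) : ZMod (3 ^ (2 * n)))).val < L ↔
        cell n (k + 1) u = j + 1 := by
      intro u
      have h1 := WI2_val (3 ^ (2 * n)) u (j + 1) L hLpos hjN
      have h2 : u - (((j + 1) * L : ℕ) : ZMod (3 ^ (2 * n))) =
          u - ((j * L : ℕ) : ZMod (3 ^ (2 * n))) - ((L : ℕ) : ZMod (3 ^ (2 * n))) := by
        push_cast
        ring
      rw [h2] at h1
      exact h1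
    set X0 := chi ((3 : ℝ) ^ (2 * n - κ)) (((j * L : ℕ) : ZMod (3 ^ (2 * n))) - v₀) with hX0
    have hX0pos : 0 < X0 := ((hCHI (3 ^ (2 * n)) _ hℓ0).1 _).1
    have hX0 : (1 : ℝ) / 3 ≤ X0 := by
      refine WI2_third.trans ?_
      apply WI2_near hCHI (3 ^ (2 * n)) _ hℓ0 _ (((j * L : ℕ) : ℤ) - ((v₀.val : ℕ) : ℤ))
      · push_cast
        rw [ZMod.natCast_zmod_val]
      · push_cast
        rw [hℓR, abs_le]
        have b1 : ((q * (B * L) : ℕ) : ℝ) ≤ (v₀.val : ℝ) := by exact_mod_cast hq1
        have b2 : ((v₀.val : ℕ) : ℝ) ≤ (((q + 1) * (B * L) : ℕ) : ℝ) := by exact_mod_cast hq2.le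
        have b3 : ((q * (B * L) : ℕ) : ℝ) ≤ ((j * L : ℕ) : ℝ) := by
          have : q * (B * L) ≤ j * L := by rw [hj1]; omega
          exact_mod_cast this
        have b4 : ((j * L : ℕ) : ℝ) ≤ (((q + 1) * (B * L) : ℕ) : ℝ) := by
          have : j * L ≤ (q + 1) * (B * L) := by
            have : (j + 2) * L = j * L + 2 * L := by ring
            omega
          exact_mod_cast this
        push_cast at b1 b2 b3 b4
        constructor <;> nlinarith
    set δ : ℝ := 1 / (B : ℝ) with hδ
    have hBR : (0 : ℝ) < B := by exact_mod_cast hBpos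
    have hLR : (0 : ℝ) < L := by exact_mod_cast hLpos
    have hB3 : 3 ≤ B := by
      rw [hB, pow_succ]
      have : 1 ≤ 3 ^ A := Nat.one_le_pow _ _ (by norm_num)
      omega
    have hB3R : (3 : ℝ) ≤ B := by exact_mod_cast hB3
    have hδ3 : δ ≤ 1 / 3 := by
      rw [hδ]
      exact one_div_le_one_div_of_le (by norm_num) hB3R
    have hδ0 : 0 ≤ δ := by rw [hδ]; positivity
    have hvar : ∀ x, cell n (k + 1) (uv c p x) = j ∨ cell n (k + 1) (uv c p x) = j + 1 →
        |wt c κ p' x - X0| ≤ 4 * δ * X0 := by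
      intro x hx
      rw [hwt]
      set u := uv c p x with hu
      have hlow : j * L ≤ u.val := by
        have h1 : u.val / L = cell n (k + 1) u := rfl
        rcases hx with h | h
        · rw [h] at h1
          rw [← h1]
          exact Nat.div_mul_le_self _ _
        · rw [h] at h1
          have h2 := Nat.div_mul_le_self u.val L
          rw [h1] at h2
          have : (j + 1) * L = j * L + L := by ring
          omega
      have hup : u.val < (j + 2) * L := by
        have h1 : u.val / L = cell n (k + 1) u := rfl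
        have h2 := Nat.lt_div_mul_add (a := u.val) (b := L) hLpos
        rcases hx with h | h
        · rw [h1, h] at h2
          have : (j + 2) * L = j * L + L + L := by ring
          omega
        · rw [h1, h] at h2
          have : (j + 2) * L = (j + 1) * L + L := by ring
          omega
      have e1 : u - v₀ = (((j * L : ℕ) : ZMod (3 ^ (2 * n))) - v₀) +
          ((((u.val : ℕ) : ℤ) - ((j * L : ℕ) : ℤ) : ℤ) : ZMod (3 ^ (2 * n))) := by
        push_cast
        rw [ZMod.natCast_zmod_val]
        ring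
      rw [e1]
      apply WI2_var hCHI (3 ^ (2 * n)) _ hℓ0 _ _ δ hδ3
      have c1 : ((j * L : ℕ) : ℝ) ≤ (u.val : ℝ) := by exact_mod_cast hlow
      have c2 : ((u.val : ℕ) : ℝ) ≤ (((j + 2) * L : ℕ) : ℝ) := by exact_mod_cast hup.le
      rw [div_le_iff₀ hℓ0, hℓR, hδ]
      push_cast at c1 c2 ⊢
      rw [abs_of_nonneg (by linarith)]
      have e3 : 2 * (1 / (B : ℝ)) * (B * L) = 2 * L := by
        field_simp
      rw [e3]
      linarith
    -- the sum
    set aj := ac c (k + 1) p j with haj
    set aj1 := ac c (k + 1) p (j + 1) with haj1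
    have hDD : DD c κ k p' (((j * L : ℕ) : ZMod (3 ^ (2 * n))) - v₀) - X0 * (aj - aj1) =
        ∑ x, (wt c κ p' x - X0) * (ind (cell n (k + 1) (uv c p x) = j) -
          ind (cell n (k + 1) (uv c p x) = j + 1)) := by
      have e1 : DD c κ k p' (((j * L : ℕ) : ZMod (3 ^ (2 * n))) - v₀) =
          ∑ x, wt c κ p' x * (ind (cell n (k + 1) (uv c p x) = j) -
            ind (cell n (k + 1) (uv c p x) = j + 1)) := by
        unfold DD
        apply Finset.sum_congr rfl
        intro x _
        have e2 : uv c p' x - (((j * L : ℕ) : ZMod (3 ^ (2 * n))) - v₀) =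
            uv c p x - ((j * L : ℕ) : ZMod (3 ^ (2 * n))) := by
          rw [huv]
          ring
        rw [e2]
        congr 2
        · exact congrArg ind (propext (hi1 (uv c p x)))
        · exact congrArg ind (propext (hi2 (uv c p x)))
      rw [e1, haj, haj1, ac, ac, ← Finset.sum_sub_distrib, Finset.mul_sum,
        ← Finset.sum_sub_distrib]
      apply Finset.sum_congr rfl
      intro x _
      ring
    have hind : ∀ P : Prop, ind P = 0 ∨ ind P = 1 := by
      intro P
      unfold ind
      split_ifs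
      · exact Or.inr rfl
      · exact Or.inl rfl
    have hbound : |DD c κ k p' (((j * L : ℕ) : ZMod (3 ^ (2 * n))) - v₀) - X0 * (aj - aj1)| ≤
        4 * δ * X0 * (aj + aj1) := by
      rw [hDD, haj, haj1, ac, ac, ← Finset.sum_add_distrib, Finset.mul_sum]
      refine (Finset.abs_sum_le_sum_abs _ _).trans ?_
      apply Finset.sum_le_sum
      intro x _
      rw [abs_mul]
      by_cases h1 : cell n (k + 1) (uv c p x) = j
      · have h2 : ¬ cell n (k + 1) (uv c p x) = j + 1 := by omega
        have i1 : ind (cell n (k + 1) (uv c p x) = j) = 1 := by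
          unfold ind
          rw [if_pos h1]
        have i2 : ind (cell n (k + 1) (uv c p x) = j + 1) = 0 := by
          unfold ind
          rw [if_neg h2]
        rw [i1, i2, sub_zero, abs_one, mul_one, add_zero, mul_one]
        exact hvar x (Or.inl h1)
      · have i1 : ind (cell n (k + 1) (uv c p x) = j) = 0 := by
          unfold ind
          rw [if_neg h1]
        by_cases h2 : cell n (k + 1) (uv c p x) = j + 1
        · have i2 : ind (cell n (k + 1) (uv c p x) = j + 1) = 1 := by
            unfold ind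
            rw [if_pos h2]
          rw [i1, i2, zero_sub, abs_neg, abs_one, mul_one, zero_add, mul_one]
          exact hvar x (Or.inr h2)
        · have i2 : ind (cell n (k + 1) (uv c p x) = j + 1) = 0 := by
            unfold ind
            rw [if_neg h2]
          rw [i1, i2]
          simp
    have hsum0 : 0 ≤ aj + aj1 := by
      rw [haj, haj1, ac, ac]
      apply add_nonneg
      · apply Finset.sum_nonneg
        intro x _
        rcases hind (cell n (k + 1) (uv c p x) = j) with h | h <;> rw [h]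
        norm_num
      · apply Finset.sum_nonneg
        intro x _
        rcases hind (cell n (k + 1) (uv c p x) = j + 1) with h | h <;> rw [h]
        norm_num
    have hfin : X0 * |aj - aj1| ≤ |DD c κ k p' (((j * L : ℕ) : ZMod (3 ^ (2 * n))) - v₀)| +
        4 * δ * X0 * (aj + aj1) := by
      have h1 : X0 * |aj - aj1| = |X0 * (aj - aj1)| := by
        rw [abs_mul, abs_of_pos hX0pos]
      rw [h1]
      have h2 := abs_sub_abs_le_abs_sub (X0 * (aj - aj1))
        (DD c κ k p' (((j * L : ℕ) : ZMod (3 ^ (2 * n))) - v₀))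
      rw [abs_sub_comm] at h2
      linarith
    have hD0 := abs_nonneg (DD c κ k p' (((j * L : ℕ) : ZMod (3 ^ (2 * n))) - v₀))
    set D := |DD c κ k p' (((j * L : ℕ) : ZMod (3 ^ (2 * n))) - v₀)| with hD
    have hgoal : |aj - aj1| ≤ 3 * D + 4 * δ * (aj + aj1) := by
      have h1 : X0 * |aj - aj1| ≤ X0 * (3 * D + 4 * δ * (aj + aj1)) := by
        have h2 : D ≤ X0 * (3 * D) := by nlinarith
        calc X0 * |aj - aj1| ≤ D + 4 * δ * X0 * (aj + aj1) := hfin
          _ ≤ X0 * (3 * D) + 4 * δ * X0 * (aj + aj1) := by linarith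
          _ = X0 * (3 * D + 4 * δ * (aj + aj1)) := by ring
      exact le_of_mul_le_mul_left h1 hX0pos
    have hδ2 : 4 * δ = 4 / 3 ^ (A + 1) := by
      rw [hδ, hB]
      push_cast
      ring
    rw [hδ2] at hgoal
    exact hgoal
  · intro hac
    unfold hv NN
    have h1 : Real.exp (-1) * ac c κ p q ≤ ∑ x, wt c κ p' x := by
      rw [ac, Finset.mul_sum]
      apply Finset.sum_le_sum
      intro x _
      by_cases hx : cell n κ (uv c p x) = q
      · have i1 : ind (cell n κ (uv c p x) = q) = 1 := by
          unfold ind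
          rw [if_pos hx]
        rw [i1, mul_one, hwt]
        set u := uv c p x with hu
        have hu1 : q * (B * L) ≤ u.val := by
          have h1 : u.val / (B * L) = q := by
            rw [← hx, cell, hlN]
          rw [← h1]
          exact Nat.div_mul_le_self _ _
        have hu2 : u.val < (q + 1) * (B * L) := by
          have h1 : u.val / (B * L) = q := by
            rw [← hx, cell, hlN]
          have h2 := Nat.lt_div_mul_add (a := u.val) (b := B * L) (by positivity)
          rw [h1] at h2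
          linarith
        apply WI2_near hCHI (3 ^ (2 * n)) _ hℓ0 _ (((u.val : ℕ) : ℤ) - ((v₀.val : ℕ) : ℤ))
        · push_cast
          rw [ZMod.natCast_zmod_val, ZMod.natCast_zmod_val]
        · push_cast
          rw [hℓR, abs_le]
          have b1 : ((q * (B * L) : ℕ) : ℝ) ≤ (v₀.val : ℝ) := by exact_mod_cast hq1
          have b2 : ((v₀.val : ℕ) : ℝ) ≤ (((q + 1) * (B * L) : ℕ) : ℝ) := by exact_mod_cast hq2.le
          have b3 : ((q * (B * L) : ℕ) : ℝ) ≤ (u.val : ℝ) := by exact_mod_cast hu1
          have b4 : ((u.val : ℕ) : ℝ) ≤ (((q + 1) * (B * L) : ℕ) : ℝ) := by exact_mod_cast hu2.le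
          push_cast at b1 b2 b3 b4
          constructor <;> nlinarith
      · have i1 : ind (cell n κ (uv c p x) = q) = 0 := by
          unfold ind
          rw [if_neg hx]
        rw [i1, mul_zero]
        exact ((hCHI (3 ^ (2 * n)) _ hℓ0).1 _).1.le
    refine le_trans ?_ h1
    have e1 : Real.exp (S - 1) = Real.exp (-1) * Real.exp S := by
      rw [← Real.exp_add]
      congr 1
      ring
    rw [e1, mul_assoc]
    exact mul_le_mul_of_nonneg_left hac (Real.exp_pos _).le

end Pool.Agent.GA
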